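import Pool.Agent.Helper89.HY.St

/-!
# Project HY, module KM: the second moment of the sums `KS`
-/

set_option autoImplicit false

noncomputable section

namespace Pool.Agent.Helper7.HY

open Finset
open Pool.Agent.Helper89.HY

variable {p : ℕ} [Fact p.Prime]

private lemma ad_add (x y : ZMod p) : ad p (x + y) = ad p x * ad p y := by
  unfold ad
  exact AddChar.map_add_eq_mul _ _ _

private lemma ad_zero : ad p 0 = 1 := by
  unfold ad
  exact AddChar.map_zero_eq_one _

private lemma ad_norm (x : ZMod p) : ‖ad p x‖ = 1 := by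
  unfold ad
  exact AddChar.norm_apply _ _

private lemma ad_conj (x : ZMod p) : (starRingEnd ℂ) (ad p x) = ad p (-x) := by
  unfold ad
  exact (AddChar.map_neg_eq_conj _ _).symm

private lemma ad_sum (b : ZMod p) : ∑ x : ZMod p, ad p (x * b) = if b = 0 then (p : ℂ) else 0 := by
  have h := AddChar.sum_mulShift (ψ := (ZMod.stdAddChar : AddChar (ZMod p) ℂ)) b
    (ZMod.isPrimitive_stdAddChar p)
  unfold ad
  rw [h, ZMod.card]
  split_ifs <;> simp

private lemma KS_triv (A B n : ZMod p) : ‖KS p A B n‖ ≤ 2 * p := by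
  classical
  unfold KS
  have h1 : ∀ u : ZMod p, ‖∑ v : ZMod p, if u * v = n then ad p (A * u + B * v) else 0‖ ≤
      (if u = 0 then (p : ℝ) else 0) + 1 := by
    intro u
    have h2 : ‖∑ v : ZMod p, if u * v = n then ad p (A * u + B * v) else 0‖ ≤
        ∑ v : ZMod p, if u * v = n then (1 : ℝ) else 0 := by
      refine (norm_sum_le _ _).trans (sum_le_sum fun v _ => ?_)
      split_ifs
      · rw [ad_norm]
      · rw [norm_zero]
    refine h2.trans ?_
    by_cases hu : u = 0
    · rw [if_pos hu]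
      calc ∑ v : ZMod p, (if u * v = n then (1 : ℝ) else 0) ≤ ∑ v : ZMod p, (1 : ℝ) :=
            sum_le_sum fun v _ => by split_ifs <;> norm_num
        _ = p := by simp [ZMod.card]
        _ ≤ p + 1 := by linarith
    · rw [if_neg hu, zero_add]
      have h3 : ∀ v : ZMod p, (if u * v = n then (1 : ℝ) else 0) = if v = n / u then 1 else 0 := by
        intro v
        have : u * v = n ↔ v = n / u := by
          rw [eq_div_iff hu, mul_comm]
        simp only [this]
      simp only [h3]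
      rw [sum_ite_eq']
      simp
  refine (norm_sum_le _ _).trans ((sum_le_sum fun u _ => h1 u).trans ?_)
  rw [sum_add_distrib, sum_ite_eq']
  simp only [mem_univ, if_true, sum_const, card_univ, ZMod.card, nsmul_eq_mul, mul_one]
  linarith

private lemma KS_eq (A B : ZMod p) {n : ZMod p} (hn : n ≠ 0) :
    KS p A B n = ∑ u ∈ univ.erase (0 : ZMod p), ad p (A * u + B * (n / u)) := by
  unfold KS
  rw [← sum_erase_add _ _ (mem_univ (0 : ZMod p))]
  have h0 : ∑ v : ZMod p, (if (0 : ZMod p) * v = n then ad p (A * 0 + B * v) else 0) = 0 := by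
    apply sum_eq_zero
    intro v _
    rw [if_neg]
    rw [zero_mul]
    exact fun h => hn h.symm
  rw [h0, add_zero]
  refine sum_congr rfl fun u hu => ?_
  have hu0 := ne_of_mem_erase hu
  rw [sum_eq_single (n / u)]
  · rw [if_pos (mul_div_cancel₀ _ hu0)]
  · intro v _ hv
    rw [if_neg]
    intro h
    apply hv
    rw [eq_div_iff hu0, mul_comm]
    exact h
  · intro h
    exact absurd (mem_univ _) h

private lemma sum_ne {A : ZMod p} (hA : A ≠ 0) :
    ∑ u ∈ univ.erase (0 : ZMod p), ad p (A * u) = -1 := by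
  have h := ad_sum (p := p) A
  rw [if_neg hA, ← sum_erase_add _ _ (mem_univ (0 : ZMod p)), zero_mul, ad_zero] at h
  have h2 : ∑ u ∈ univ.erase (0 : ZMod p), ad p (A * u) =
      ∑ u ∈ univ.erase (0 : ZMod p), ad p (u * A) := by simp only [mul_comm]
  rw [h2]
  linear_combination h

/-- the Kloosterman sum -/
private def Kl (y : ZMod p) : ℂ := ∑ t ∈ univ.erase (0 : ZMod p), ad p (t + y / t)

private lemma KS_Kl {A B n : ZMod p} (hA : A ≠ 0) (hn : n ≠ 0) :
    KS p A B n = Kl (A * B * n) := by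
  rw [KS_eq A B hn]
  unfold Kl
  refine sum_nbij' (fun u => A * u) (fun t => t / A) ?_ ?_ ?_ ?_ ?_
  · intro u hu
    rw [mem_erase] at hu ⊢
    exact ⟨mul_ne_zero hA hu.1, mem_univ _⟩
  · intro u hu
    rw [mem_erase] at hu ⊢
    exact ⟨div_ne_zero hu.1 hA, mem_univ _⟩
  · intro u _
    field_simp
  · intro u _
    field_simp
  · intro u hu
    rw [mem_erase] at hu
    have hu0 := hu.1
    congr 1
    field_simp

private lemma Kl_zero : Kl (0 : ZMod p) = -1 := by
  unfold Kl
  rw [← sum_ne (p := p) (A := 1) one_ne_zero]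
  refine sum_congr rfl fun u _ => ?_
  rw [zero_div, add_zero, one_mul]

private lemma KS_zero_left {B n : ZMod p} (hB : B ≠ 0) (hn : n ≠ 0) : KS p 0 B n = -1 := by
  rw [KS_eq 0 B hn, ← sum_ne (p := p) (A := 1) one_ne_zero]
  refine sum_nbij' (fun u => B * n / u) (fun t => B * n / t) ?_ ?_ ?_ ?_ ?_
  · intro u hu
    rw [mem_erase] at hu ⊢
    exact ⟨div_ne_zero (mul_ne_zero hB hn) hu.1, mem_univ _⟩
  · intro u hu
    rw [mem_erase] at hu ⊢
    exact ⟨div_ne_zero (mul_ne_zero hB hn) hu.1, mem_univ _⟩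
  · intro u hu
    rw [mem_erase] at hu
    have hu0 := hu.1
    field_simp
  · intro u hu
    rw [mem_erase] at hu
    have hu0 := hu.1
    field_simp
  · intro u hu
    congr 1
    ring

private lemma Kl_moment : ∑ y : ZMod p, ‖Kl y‖ ^ 2 ≤ (p : ℝ) ^ 2 := by
  classical
  have h1 : ((∑ y : ZMod p, ‖Kl y‖ ^ 2 : ℝ) : ℂ) =
      ∑ t ∈ univ.erase (0 : ZMod p), ∑ t' ∈ univ.erase (0 : ZMod p),
        ad p (t - t') * ∑ y : ZMod p, ad p (y * (1 / t - 1 / t')) := by
    push_cast
    have h2 : ∀ y : ZMod p, ((‖Kl y‖ : ℂ)) ^ 2 =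
        ∑ t ∈ univ.erase (0 : ZMod p), ∑ t' ∈ univ.erase (0 : ZMod p),
          ad p (t - t') * ad p (y * (1 / t - 1 / t')) := by
      intro y
      rw [← Complex.mul_conj']
      unfold Kl
      rw [map_sum, sum_mul_sum]
      refine sum_congr rfl fun t _ => sum_congr rfl fun t' _ => ?_
      rw [ad_conj, ← ad_add, ← ad_add]
      congr 1
      ring
    simp only [h2]
    rw [sum_comm]
    refine sum_congr rfl fun t _ => ?_
    rw [sum_comm]
    refine sum_congr rfl fun t' _ => ?_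
    rw [mul_sum]
  have h3 : ∀ t ∈ univ.erase (0 : ZMod p), ∑ t' ∈ univ.erase (0 : ZMod p),
      ad p (t - t') * ∑ y : ZMod p, ad p (y * (1 / t - 1 / t')) = (p : ℂ) := by
    intro t ht
    have ht0 := ne_of_mem_erase ht
    rw [sum_eq_single t]
    · rw [ad_sum, if_pos (sub_self _), sub_self, ad_zero, one_mul]
    · intro t' ht' hne
      have ht0' := ne_of_mem_erase ht'
      rw [ad_sum, if_neg, mul_zero]
      intro h
      apply hne
      have h4 : 1 / t = 1 / t' := sub_eq_zero.1 h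
      rw [one_div, one_div, inv_inj] at h4
      exact h4.symm
    · intro h
      exact absurd ht h
  rw [sum_congr rfl h3, sum_const, nsmul_eq_mul] at h1
  have h5 : (∑ y : ZMod p, ‖Kl y‖ ^ 2 : ℝ) = ((univ.erase (0 : ZMod p)).card : ℝ) * p := by
    exact_mod_cast h1
  rw [h5]
  have h6 : ((univ.erase (0 : ZMod p)).card : ℝ) ≤ p := by
    have : (univ.erase (0 : ZMod p)).card ≤ p := by
      calc (univ.erase (0 : ZMod p)).card ≤ (univ : Finset (ZMod p)).card := card_erase_le
        _ = p := by rw [card_univ, ZMod.card]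
    exact_mod_cast this
  rw [sq]
  exact mul_le_mul_of_nonneg_right h6 (Nat.cast_nonneg _)

private lemma card_cubic (a b c d : ZMod p) (h : a ≠ 0 ∨ b ≠ 0 ∨ c ≠ 0 ∨ d ≠ 0)
    (S : Finset (ZMod p)) (hS : ∀ x ∈ S, a * x ^ 3 + b * x ^ 2 + c * x + d = 0) : S.card ≤ 3 := by
  classical
  have h0 : (⟨a, b, c, d⟩ : Cubic (ZMod p)).toPoly ≠ 0 := by
    rcases h with h | h | h | h
    · exact Cubic.ne_zero_of_a_ne_zero h
    · exact Cubic.ne_zero_of_b_ne_zero h
    · exact Cubic.ne_zero_of_c_ne_zero h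
    · exact Cubic.ne_zero_of_d_ne_zero h
  have h1 : S ⊆ (⟨a, b, c, d⟩ : Cubic (ZMod p)).roots.toFinset := by
    intro x hx
    rw [Multiset.mem_toFinset, Cubic.mem_roots_iff h0]
    exact hS x hx
  exact (card_le_card h1).trans Cubic.card_roots_le

private lemma card_lin {a b : ZMod p} (h : a ≠ 0 ∨ b ≠ 0) (S : Finset (ZMod p))
    (hS : ∀ x ∈ S, x ≠ 0 ∧ a + b / x = 0) : S.card ≤ 1 := by
  rw [card_le_one]
  intro x hx y hy
  obtain ⟨hx0, hx1⟩ := hS x hx
  obtain ⟨hy0, hy1⟩ := hS y hy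
  have ha : a ≠ 0 := by
    intro ha
    rw [ha, zero_add, div_eq_zero_iff] at hx1
    rcases h with h | h
    · exact h ha
    · rcases hx1 with h1 | h1
      · exact h h1
      · exact hx0 h1
  have e1 : a * x + b = 0 := by
    have := congrArg (fun z => z * x) hx1
    simp only [add_mul, div_mul_cancel₀ _ hx0, zero_mul] at this
    exact this
  have e2 : a * y + b = 0 := by
    have := congrArg (fun z => z * y) hy1
    simp only [add_mul, div_mul_cancel₀ _ hy0, zero_mul] at this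
    exact this
  have e3 : a * (x - y) = 0 := by linear_combination e1 - e2
  rcases mul_eq_zero.1 e3 with h1 | h1
  · exact absurd h1 ha
  · exact sub_eq_zero.1 h1

theorem hKM : StKM := by
  classical
  intro p _ m1 m2 m3 m4 hm
  set Z : Finset (ZMod p) := univ.erase (0 : ZMod p) with hZ
  have hp1 : (1 : ℝ) ≤ p := by
    have := (Fact.out : p.Prime).one_lt
    exact_mod_cast this.le
  set Y : ZMod p → ZMod p := fun c => (m2 + m4 / c) * (m3 + m1 / c) * (1 + c) with hY
  set E1 : Finset (ZMod p) := Z.filter (fun c => 1 + c = 0) with hE1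
  set E2 : Finset (ZMod p) := Z.filter (fun c => (m2 ≠ 0 ∨ m4 ≠ 0) ∧ m2 + m4 / c = 0) with hE2
  set E3 : Finset (ZMod p) := Z.filter (fun c => (m3 ≠ 0 ∨ m1 ≠ 0) ∧ m3 + m1 / c = 0) with hE3
  have hcE1 : E1.card ≤ 1 := by
    rw [card_le_one]
    intro x hx y hy
    rw [hE1, mem_filter] at hx hy
    linear_combination hx.2 - hy.2
  have hcE2 : E2.card ≤ 1 := by
    by_cases h : m2 ≠ 0 ∨ m4 ≠ 0
    · apply card_lin h
      intro x hx
      rw [hE2, mem_filter, hZ, mem_erase] at hx
      exact ⟨hx.1.1, hx.2.2⟩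
    · have : E2 = ∅ := by
        rw [hE2, filter_eq_empty_iff]
        intro x _ hx
        exact h hx.1
      rw [this]
      simp
  have hcE3 : E3.card ≤ 1 := by
    by_cases h : m3 ≠ 0 ∨ m1 ≠ 0
    · apply card_lin h
      intro x hx
      rw [hE3, mem_filter, hZ, mem_erase] at hx
      exact ⟨hx.1.1, hx.2.2⟩
    · have : E3 = ∅ := by
        rw [hE3, filter_eq_empty_iff]
        intro x _ hx
        exact h hx.1
      rw [this]
      simp
  have hfib : ∀ y ∈ Z, (Z.filter (fun c => Y c = y)).card ≤ 3 := by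
    intro y hy
    have hy0 : y ≠ 0 := ne_of_mem_erase hy
    apply card_cubic (m2 * m3) (m2 * m3 + (m2 * m1 + m4 * m3) - y)
      (m2 * m1 + m4 * m3 + m4 * m1) (m4 * m1)
    · by_contra hcon
      push Not at hcon
      obtain ⟨h1, h2, h3, h4⟩ := hcon
      apply hy0
      rw [h1] at h2
      rw [h4] at h3
      linear_combination h3 - h2
    · intro x hx
      rw [mem_filter, hZ, mem_erase] at hx
      have hx0 := hx.1.1
      have hxy := hx.2
      rw [hY] at hxy
      simp only at hxy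
      have e : (m2 * x + m4) * (m3 * x + m1) * (1 + x) = y * x ^ 2 := by
        rw [← hxy]
        field_simp
      linear_combination e
  have hterm : ∀ c ∈ Z, ‖KS p (m2 + m4 / c) (m3 + m1 / c) (1 + c)‖ ^ 2 ≤
      (if c ∈ E1 then 4 * (p : ℝ) ^ 2 else 0) + (if c ∈ E2 then 4 * (p : ℝ) ^ 2 else 0) +
        (if c ∈ E3 then 4 * (p : ℝ) ^ 2 else 0) + 1 +
        ∑ y ∈ Z, (if Y c = y then ‖Kl y‖ ^ 2 else 0) := by
    intro c hc
    have hS : 0 ≤ ∑ y ∈ Z, (if Y c = y then ‖Kl y‖ ^ 2 else 0) :=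
      sum_nonneg fun y _ => by split_ifs <;> positivity
    have h4 : 0 ≤ 4 * (p : ℝ) ^ 2 := by positivity
    have htr : ‖KS p (m2 + m4 / c) (m3 + m1 / c) (1 + c)‖ ^ 2 ≤ 4 * (p : ℝ) ^ 2 := by
      have := KS_triv (m2 + m4 / c) (m3 + m1 / c) (1 + c)
      calc ‖KS p (m2 + m4 / c) (m3 + m1 / c) (1 + c)‖ ^ 2 ≤ (2 * (p : ℝ)) ^ 2 :=
            pow_le_pow_left₀ (norm_nonneg _) this 2
        _ = _ := by ring
    by_cases c1 : c ∈ E1
    · rw [if_pos c1]
      have : 0 ≤ (if c ∈ E2 then 4 * (p : ℝ) ^ 2 else 0) := by split_ifs <;> linarith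
      have : 0 ≤ (if c ∈ E3 then 4 * (p : ℝ) ^ 2 else 0) := by split_ifs <;> linarith
      linarith
    by_cases c2 : c ∈ E2
    · rw [if_pos c2, if_neg c1]
      have : 0 ≤ (if c ∈ E3 then 4 * (p : ℝ) ^ 2 else 0) := by split_ifs <;> linarith
      linarith
    by_cases c3 : c ∈ E3
    · rw [if_pos c3, if_neg c1, if_neg c2]
      linarith
    rw [if_neg c1, if_neg c2, if_neg c3]
    have n1 : 1 + c ≠ 0 := by
      intro h
      apply c1
      rw [hE1, mem_filter]
      exact ⟨hc, h⟩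
    have n2 : m2 + m4 / c = 0 → m2 = 0 ∧ m4 = 0 := by
      intro h
      by_contra hcon
      apply c2
      rw [hE2, mem_filter]
      refine ⟨hc, ?_, h⟩
      by_contra h5
      push Not at h5
      exact hcon h5
    have n3 : m3 + m1 / c = 0 → m3 = 0 ∧ m1 = 0 := by
      intro h
      by_contra hcon
      apply c3
      rw [hE3, mem_filter]
      refine ⟨hc, ?_, h⟩
      by_contra h5
      push Not at h5
      exact hcon h5
    by_cases hA : m2 + m4 / c = 0
    · have hB : m3 + m1 / c ≠ 0 := by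
        intro hB
        obtain ⟨a1, a2⟩ := n2 hA
        obtain ⟨a3, a4⟩ := n3 hB
        rcases hm with h | h | h | h
        · exact h a4
        · exact h a1
        · exact h a3
        · exact h a2
      rw [hA, KS_zero_left hB n1]
      simp only [norm_neg, norm_one, one_pow]
      linarith
    · rw [KS_Kl hA n1]
      by_cases hy : Y c = 0
      · have hy' : (m2 + m4 / c) * (m3 + m1 / c) * (1 + c) = 0 := hy
        rw [hy', Kl_zero]
        simp only [norm_neg, norm_one, one_pow]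
        linarith
      · have h6 : ∑ y ∈ Z, (if Y c = y then ‖Kl y‖ ^ 2 else 0) = ‖Kl (Y c)‖ ^ 2 := by
          rw [sum_ite_eq, if_pos]
          rw [hZ, mem_erase]
          exact ⟨hy, mem_univ _⟩
        rw [h6]
        have h7 : (m2 + m4 / c) * (m3 + m1 / c) * (1 + c) = Y c := rfl
        rw [h7]
        linarith
  have hsumE : ∀ E : Finset (ZMod p), E.card ≤ 1 →
      ∑ c ∈ Z, (if c ∈ E then 4 * (p : ℝ) ^ 2 else 0) ≤ 4 * (p : ℝ) ^ 2 := by
    intro E hE
    have hE' : (E.card : ℝ) ≤ 1 := by exact_mod_cast hE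
    calc ∑ c ∈ Z, (if c ∈ E then 4 * (p : ℝ) ^ 2 else 0)
        = ∑ c ∈ Z.filter (fun c => c ∈ E), 4 * (p : ℝ) ^ 2 := (sum_filter _ _).symm
      _ ≤ ∑ c ∈ E, 4 * (p : ℝ) ^ 2 := by
          apply sum_le_sum_of_subset_of_nonneg
          · intro c hc
            exact (mem_filter.1 hc).2
          · intro c _ _
            positivity
      _ = (E.card : ℝ) * (4 * (p : ℝ) ^ 2) := by rw [sum_const, nsmul_eq_mul]
      _ ≤ 1 * (4 * (p : ℝ) ^ 2) := mul_le_mul_of_nonneg_right hE' (by positivity)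
      _ = _ := one_mul _
  have hone : ∑ c ∈ Z, (1 : ℝ) ≤ (p : ℝ) ^ 2 := by
    have h8 : Z.card ≤ p := by
      calc Z.card ≤ (univ : Finset (ZMod p)).card := card_erase_le
        _ = p := by rw [card_univ, ZMod.card]
    have h9 : (Z.card : ℝ) ≤ p := by exact_mod_cast h8
    rw [sum_const, nsmul_eq_mul, mul_one]
    nlinarith
  have hkl : ∑ c ∈ Z, ∑ y ∈ Z, (if Y c = y then ‖Kl y‖ ^ 2 else 0) ≤ 3 * (p : ℝ) ^ 2 := by
    rw [sum_comm]
    calc ∑ y ∈ Z, ∑ c ∈ Z, (if Y c = y then ‖Kl y‖ ^ 2 else 0)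
        = ∑ y ∈ Z, ((Z.filter (fun c => Y c = y)).card : ℝ) * ‖Kl y‖ ^ 2 := by
          refine sum_congr rfl fun y _ => ?_
          rw [← sum_filter, sum_const, nsmul_eq_mul]
      _ ≤ ∑ y ∈ Z, 3 * ‖Kl y‖ ^ 2 := by
          refine sum_le_sum fun y hy => ?_
          have : ((Z.filter (fun c => Y c = y)).card : ℝ) ≤ 3 := by exact_mod_cast hfib y hy
          exact mul_le_mul_of_nonneg_right this (by positivity)
      _ ≤ ∑ y : ZMod p, 3 * ‖Kl y‖ ^ 2 :=
          sum_le_sum_of_subset_of_nonneg (subset_univ _) (fun y _ _ => by positivity)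
      _ = 3 * ∑ y : ZMod p, ‖Kl y‖ ^ 2 := by rw [mul_sum]
      _ ≤ 3 * (p : ℝ) ^ 2 := mul_le_mul_of_nonneg_left Kl_moment (by norm_num)
  have hall := sum_le_sum hterm
  rw [sum_add_distrib, sum_add_distrib, sum_add_distrib, sum_add_distrib] at hall
  have q1 := hsumE E1 hcE1
  have q2 := hsumE E2 hcE2
  have q3 := hsumE E3 hcE3
  linarith

end Pool.Agent.Helper7.HY
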